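import Pool.Agent.Run7.h738.EX.PairT

/-!
# Pairs of mutually avoiding self-avoiding walks in a half-space
-/

set_option autoImplicit false

namespace Pool.Agent.Results.MP_8c6f77_pr.HalfSpacePairs

open scoped Classical

/-- `v` and `w` are nearest neighbours in `ℤ^d` -/
def Nb {d : ℕ} (v w : Fin d → ℤ) : Prop := ∑ i, |w i - v i| = 1

/-- the `n`-step self-avoiding walks from `0` in the domain `D`, as lists of `n + 1` points -/
def walks {d : ℕ} (D : Set (Fin d → ℤ)) (n : ℕ) : Set (List (Fin d → ℤ)) :=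
  {l | l.length = n + 1 ∧ l.head? = some 0 ∧ l.IsChain Nb ∧ l.Nodup ∧ ∀ v ∈ l, v ∈ D}

/-- the half-space `s v_j ≤ y` -/
def H {d : ℕ} (j : Fin d) (s : ℤ) (y : ℕ) : Set (Fin d → ℤ) := {v | s * v j ≤ y}

/-- the walks `a` and `b` meet at `0` only -/
def Avoid {d : ℕ} (a b : List (Fin d → ℤ)) : Prop := ∀ v ∈ a, v ∈ b → v = 0

/-- the probability that two independent uniform walks from `0` in the half-space `s v_j ≤ y`, with
`k` and `m` steps, meet at `0` only -/
noncomputable def P {d : ℕ} (j : Fin d) (s : ℤ) (y k m : ℕ) : ℝ :=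
  (({q | q.1 ∈ walks (H j s y) k ∧ q.2 ∈ walks (H j s y) m ∧ Avoid q.1 q.2} :
    Set (List (Fin d → ℤ) × List (Fin d → ℤ))).ncard : ℝ) /
    (((walks (H j s y) k).ncard : ℝ) * (walks (H j s y) m).ncard)

/-- the pairs of mutually avoiding walks from `0` in the half-space `s v_j ≤ 0` with `n` steps
together: `(k, a, b)`, where `a` has `k` steps and `b` has `n - k` steps -/
def Pairs {d : ℕ} (j : Fin d) (s : ℤ) (n : ℕ) :
    Set (ℕ × List (Fin d → ℤ) × List (Fin d → ℤ)) :=
  {q | q.1 ≤ n ∧ q.2.1 ∈ walks (H j s 0) q.1 ∧ q.2.2 ∈ walks (H j s 0) (n - q.1) ∧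
    Avoid q.2.1 q.2.2}

/-- the points of the two walks within distance `y` of the boundary of the half-space -/
def nearBoundary {d : ℕ} (j : Fin d) (s : ℤ) (y : ℕ)
    (q : ℕ × List (Fin d → ℤ) × List (Fin d → ℤ)) : Set (Fin d → ℤ) :=
  {v | (v ∈ q.2.1 ∨ v ∈ q.2.2) ∧ -(y : ℤ) ≤ s * v j}

/-- the constant -/
noncomputable def K (d : ℕ) : ℝ := 20 * (2 * (d : ℝ) + 1) ^ 6

open Run7.h738.EX in
theorem sum_eq {V : Type} [AddCommGroup V] (L : Lay V) (y n : ℕ) : (PR L y n).ncard =
    ∑ k ∈ Finset.range (n + 1), ({q | q.1 ∈ WK L (HP L y) 0 k ∧ q.2 ∈ WK L (HP L y) 0 (n - k) ∧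
      ∀ v ∈ q.1, v ∈ q.2 → v = 0} : Set (List V × List V)).ncard := by
  set T : ℕ → Set (List V × List V) := fun k => {q | q.1 ∈ WK L (HP L y) 0 k ∧
    q.2 ∈ WK L (HP L y) 0 (n - k) ∧ ∀ v ∈ q.1, v ∈ q.2 → v = 0} with hT
  have hfin : ∀ k, (T k).Finite := by
    intro k
    refine ((Finset.finite_toSet ((WF L (HP L y) 0 k) ×ˢ (WF L (HP L y) 0 (n - k))))).subset ?_
    rintro ⟨a, b⟩ ⟨h1, h2, -⟩
    rw [Finset.mem_coe, Finset.mem_product, mem_WF, mem_WF]
    exact ⟨h1, h2⟩
  have h1 : ∀ k, (T k).ncard = (hfin k).toFinset.card := fun k =>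
    Set.ncard_eq_toFinset_card _ (hfin k)
  rw [Finset.sum_congr rfl (fun k _ => h1 k), ← Finset.card_sigma,
    Set.ncard_eq_toFinset_card _ (PR_finite L y n)]
  refine Finset.card_nbij' (fun q => ⟨q.1, q.2⟩) (fun q => (q.1, q.2)) ?_ ?_ ?_ ?_
  · rintro ⟨k, a, b⟩ hq
    rw [Finset.mem_coe, Set.Finite.mem_toFinset] at hq
    rw [Finset.mem_coe, Finset.mem_sigma, Set.Finite.mem_toFinset, Finset.mem_range]
    exact ⟨Nat.lt_succ_of_le hq.1, hq.2⟩
  · rintro ⟨k, a, b⟩ hq
    rw [Finset.mem_coe, Finset.mem_sigma, Set.Finite.mem_toFinset, Finset.mem_range] at hq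
    rw [Finset.mem_coe, Set.Finite.mem_toFinset]
    exact ⟨Nat.le_of_lt_succ hq.1, hq.2⟩
  · rintro ⟨k, a, b⟩ _
    rfl
  · rintro ⟨k, a, b⟩ _
    rfl

/-- **Theorem.** Let `d ≥ 1`, let `s e_j` be a coordinate direction (`s = 1` or `s = -1`),
`K = 20 (2 d + 1)^6`, let `c_n` be the number of `n`-step self-avoiding walks from `0` in `ℤ^d`, `h_n`
the number of those in the half-space `s v_j ≤ y`, and `P k m` the probability that two independent
uniform self-avoiding walks from `0` in this half-space, with `k` and `m` steps, meet at `0` only.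

(1) For all `n` and `y`, the sum of `h_k h_{n-k} P k (n-k)` over `k = 0, …, n` (the number of the
mutually avoiding pairs with `n` steps together) is at least `c_n` and at most `3 K ^ (1 + y) c_n`.

(2) For `y' = 0` (walks in the half-space `s v_j ≤ 0` from the boundary point `0`): for all `n`, `y`
and all `x ≥ 0`, at most a fraction `exp (-x)` of the mutually avoiding pairs with `n` steps
together has more than `(8 K²) ^ (1 + y) (1 + x)` points within distance `y` of the boundary. -/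
theorem result (d : ℕ) (j : Fin d) (s : ℤ) (hs : s = 1 ∨ s = -1) :
    (∀ n y : ℕ,
      ((walks (Set.univ : Set (Fin d → ℤ)) n).ncard : ℝ) ≤
        ∑ k ∈ Finset.range (n + 1), ((walks (H j s y) k).ncard : ℝ) *
          ((walks (H j s y) (n - k)).ncard : ℝ) * P j s y k (n - k) ∧
      ∑ k ∈ Finset.range (n + 1), ((walks (H j s y) k).ncard : ℝ) *
          ((walks (H j s y) (n - k)).ncard : ℝ) * P j s y k (n - k) ≤
        3 * K d ^ (1 + y) * ((walks (Set.univ : Set (Fin d → ℤ)) n).ncard : ℝ)) ∧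
    ∀ (n y : ℕ) (x : ℝ), 0 ≤ x →
      (({q | q ∈ Pairs j s n ∧ (8 * K d ^ 2) ^ (1 + y) * (1 + x) <
        ((nearBoundary j s y q).ncard : ℝ)} :
          Set (ℕ × List (Fin d → ℤ) × List (Fin d → ℤ))).ncard : ℝ) ≤
        Real.exp (-x) * ((Pairs j s n).ncard : ℝ) := by
  set L := Run7.h738.EX.zd j s hs with hL
  have hadj : ∀ u v w : Fin d → ℤ, L.adj (v + u) (w + u) ↔ L.adj v w := by
    intro u v w
    show ∑ i, |(w + u) i - (v + u) i| = 1 ↔ ∑ i, |w i - v i| = 1
    simp only [Pi.add_apply, add_sub_add_right_eq_sub]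
  have hh : ∀ u v : Fin d → ℤ, L.h (v + u) = L.h v + L.h u := by
    intro u v
    show s * (v + u) j = s * v j + s * u j
    rw [Pi.add_apply]
    ring
  have hKK : Run7.h738.EX.KK L = K d := by
    unfold Run7.h738.EX.KK K
    show 20 * (((2 * d : ℕ) : ℝ) + 1) ^ (4 + 2 * 1) = _
    push_cast
    norm_num
  constructor
  · intro n y
    have hsum : ∑ k ∈ Finset.range (n + 1), ((walks (H j s y) k).ncard : ℝ) *
          ((walks (H j s y) (n - k)).ncard : ℝ) * P j s y k (n - k) =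
        ((Run7.h738.EX.PR L y n).ncard : ℝ) := by
      rw [sum_eq, Nat.cast_sum]
      refine Finset.sum_congr rfl fun k _ => ?_
      have hfin : ∀ m, (walks (H j s y) m).Finite := fun m =>
        Run7.h738.EX.WK_finite L (Run7.h738.EX.HP L y) 0 m
      have e : ({q | q.1 ∈ Run7.h738.EX.WK L (Run7.h738.EX.HP L y) 0 k ∧
          q.2 ∈ Run7.h738.EX.WK L (Run7.h738.EX.HP L y) 0 (n - k) ∧ ∀ v ∈ q.1, v ∈ q.2 → v = 0} :
            Set (List (Fin d → ℤ) × List (Fin d → ℤ))) =
          {q | q.1 ∈ walks (H j s y) k ∧ q.2 ∈ walks (H j s y) (n - k) ∧ Avoid q.1 q.2} := rfl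
      rw [e]
      unfold P
      set N := ({q | q.1 ∈ walks (H j s y) k ∧ q.2 ∈ walks (H j s y) (n - k) ∧ Avoid q.1 q.2} :
        Set (List (Fin d → ℤ) × List (Fin d → ℤ))) with hN
      rcases eq_or_ne (((walks (H j s y) k).ncard : ℝ) * ((walks (H j s y) (n - k)).ncard : ℝ)) 0
        with h0 | h0
      · rw [h0, zero_mul]
        have hNe : N = ∅ := by
          rw [Set.eq_empty_iff_forall_notMem]
          rintro ⟨a, b⟩ ⟨h1, h2, -⟩
          rcases mul_eq_zero.1 h0 with h3 | h3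
          · rw [Nat.cast_eq_zero, Set.ncard_eq_zero (hfin k)] at h3
            rw [h3] at h1
            exact h1
          · rw [Nat.cast_eq_zero, Set.ncard_eq_zero (hfin (n - k))] at h3
            rw [h3] at h2
            exact h2
        rw [hNe, Set.ncard_empty, Nat.cast_zero]
      · exact mul_div_cancel₀ _ h0
    rw [hsum]
    have hc : ((walks (Set.univ : Set (Fin d → ℤ)) n).ncard : ℝ) =
        ((Run7.h738.EX.WF L Set.univ 0 n).card : ℝ) := by
      rw [← Run7.h738.EX.WF_ncard]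
      rfl
    rw [hc]
    constructor
    · exact_mod_cast Run7.h738.EX.PR_ge L hadj hh y n
    · have h1 := Run7.h738.EX.PR_le L hadj hh y n
      have h2 := Run7.h738.EX.mean_NM L (D := Set.univ) (0 : Fin d → ℤ)
        (fun v _ => Set.mem_univ _) n y
      rw [hKK] at h2
      refine le_trans ?_ h2
      exact_mod_cast h1
  · intro n y x hx
    have h := Run7.h738.EX.pair_tail L hadj hh n y hx
    rw [hKK] at h
    exact h

end Pool.Agent.Results.MP_8c6f77_pr.HalfSpacePairs
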