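import Pool.Agent.Run7.h738.NC.Near

/-!
# Close pairs of points of two disjoint self-avoiding walks on the square lattice

Two independent uniform self-avoiding walks `w, w'` from the origin of `ℤ²`, with `n` and `m` steps:
the probability that they are disjoint (apart from the starting point) and have at least `J` pairs
of points, one on each walk and both different from the origin, at distance at most `r` is at most
`K^r exp (- J / K^r)`, uniformly in `n` and `m`, for every `r ≥ 1`.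
-/

set_option autoImplicit false

namespace Pool.Agent.Results.MP_8c6f77_pr.NearContacts

/-- `w` is an `n`-step self-avoiding path on `ℤ²` from the origin. -/
def IsSAW (n : ℕ) (w : Fin (n + 1) → ℤ × ℤ) : Prop :=
  w 0 = (0, 0) ∧
  (∀ i : Fin n, |(w i.succ).1 - (w i.castSucc).1| + |(w i.succ).2 - (w i.castSucc).2| = 1) ∧
  Function.Injective w

/-- `a_n`, the number of `n`-step self-avoiding paths on `ℤ²` from the origin -/
noncomputable def a (n : ℕ) : ℕ := Nat.card {w : Fin (n + 1) → ℤ × ℤ // IsSAW n w}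

/-- `w{1,…,n} ∩ w'{0,…,m} = ∅` -/
def Disj {n m : ℕ} (w : Fin (n + 1) → ℤ × ℤ) (w' : Fin (m + 1) → ℤ × ℤ) : Prop :=
  ∀ i j, i ≠ 0 → w i ≠ w' j

/-- the number of close pairs: pairs `i, j ≥ 1` with `|w(i) - w'(j)| ≤ r`, in the `ℓ¹` norm -/
noncomputable def near (r : ℕ) {n m : ℕ} (w : Fin (n + 1) → ℤ × ℤ) (w' : Fin (m + 1) → ℤ × ℤ) : ℕ :=
  Nat.card {q : Fin (n + 1) × Fin (m + 1) //
    q.1 ≠ 0 ∧ q.2 ≠ 0 ∧ |(w' q.2).1 - (w q.1).1| + |(w' q.2).2 - (w q.1).2| ≤ r}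

/-- the probability that two independent uniform self-avoiding paths `w, w'` with `n` and `m` steps
are disjoint (apart from their starting point) and have at least `J` pairs of points at distance
at most `r` -/
noncomputable def P (r n m : ℕ) (J : ℝ) : ℝ :=
  (Nat.card {q : (Fin (n + 1) → ℤ × ℤ) × (Fin (m + 1) → ℤ × ℤ) //
    IsSAW n q.1 ∧ IsSAW m q.2 ∧ Disj q.1 q.2 ∧ J ≤ near r q.1 q.2} : ℝ) / (a n * a m)

theorem near_eq (r : ℕ) {n m : ℕ} (w : Fin (n + 1) → ℤ × ℤ) (w' : Fin (m + 1) → ℤ × ℤ) :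
    near r w w' = Run7.h738.NC.NN r w w' := by
  classical
  unfold near Run7.h738.NC.NN
  rw [Nat.card_eq_fintype_card, Fintype.card_subtype]
  congr 1
  ext q
  simp only [Finset.mem_filter]
  have h : (|(w' q.2).1 - (w q.1).1| + |(w' q.2).2 - (w q.1).2| ≤ (r : ℤ)) ↔
      Run7.h738.ND.D (w q.1) (w' q.2) ≤ r := by
    unfold Run7.h738.ND.D
    rw [Int.abs_eq_natAbs, Int.abs_eq_natAbs]
    omega
  rw [h]

theorem disj_iff {n m : ℕ} {w : Fin (n + 1) → ℤ × ℤ} {w' : Fin (m + 1) → ℤ × ℤ}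
    (h : IsSAW n w) (h' : IsSAW m w') : Disj w w' ↔ Pool.Agent.W840.CT.DJ w w' := by
  constructor
  · intro hd i j hij
    have hi : i = 0 := by
      by_contra hi
      exact hd i j hi hij
    subst hi
    refine ⟨rfl, h'.2.2 ?_⟩
    rw [← hij, h.1, h'.1]
  · intro hd i j hi hij
    exact hi (hd i j hij).1

theorem P_eq (r n m : ℕ) (J : ℝ) : P r n m J =
    (({q | Pool.Agent.W840.CT.SW n q.1 ∧ Pool.Agent.W840.CT.SW m q.2 ∧
      Pool.Agent.W840.CT.DJ q.1 q.2 ∧ J ≤ Run7.h738.NC.NN r q.1 q.2} :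
      Set ((Fin (n + 1) → ℤ × ℤ) × (Fin (m + 1) → ℤ × ℤ))).ncard : ℝ) /
      (Pool.Agent.W840.CT.cn n * Pool.Agent.W840.CT.cn m) := by
  unfold P
  have h : ({q | Pool.Agent.W840.CT.SW n q.1 ∧ Pool.Agent.W840.CT.SW m q.2 ∧
      Pool.Agent.W840.CT.DJ q.1 q.2 ∧ J ≤ Run7.h738.NC.NN r q.1 q.2} :
      Set ((Fin (n + 1) → ℤ × ℤ) × (Fin (m + 1) → ℤ × ℤ))) =
      {q | IsSAW n q.1 ∧ IsSAW m q.2 ∧ Disj q.1 q.2 ∧ J ≤ near r q.1 q.2} := by
    ext q
    simp only [Set.mem_ofPred_eq]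
    constructor
    · rintro ⟨h1, h2, h3, h4⟩
      exact ⟨h1, h2, (disj_iff h1 h2).2 h3, by rw [near_eq]; exact h4⟩
    · rintro ⟨h1, h2, h3, h4⟩
      exact ⟨h1, h2, (disj_iff h1 h2).1 h3, by rw [near_eq] at h4; exact h4⟩
  rw [h]
  have h2 := Nat.card_coe_set_eq ({q | IsSAW n q.1 ∧ IsSAW m q.2 ∧ Disj q.1 q.2 ∧
    J ≤ near r q.1 q.2} : Set ((Fin (n + 1) → ℤ × ℤ) × (Fin (m + 1) → ℤ × ℤ)))
  rw [← h2]
  rfl

/-- **Close pairs of points of two disjoint walks have exponential tails.**  First part: uniformly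
in the lengths `n, m`, and for every distance `r ≥ 1`, the probability to be disjoint with at least
`J` pairs of points at distance at most `r` is at most `K^r exp (- J / K^r)`.  Second part: two
walks of lengths `n, m` with `n + m ≥ 2`, conditioned to be disjoint, have at least
`K^r (log² (n + m) + x)` such pairs with (conditional) probability at most `exp (-x)`. -/
theorem result : ∃ K : ℝ, 1 < K ∧
    (∀ r n m J : ℕ, 1 ≤ r → P r n m J ≤ K ^ r * Real.exp (-(J / K ^ r))) ∧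
    (∀ r n m : ℕ, 1 ≤ r → 2 ≤ n + m → ∀ x : ℝ, 0 ≤ x →
      P r n m (K ^ r * (Real.log (n + m) ^ 2 + x)) ≤ Real.exp (-x) * P r n m 0) := by
  obtain ⟨K, hK, h1, h2⟩ := Run7.h738.NC.tail_both
  refine ⟨K, hK, fun r n m J hr => ?_, fun r n m hr hnm x hx => ?_⟩
  · have h3 := h1 r n m J hr
    have hn := Pool.Agent.W840.CT.cn_pos n
    have hm := Pool.Agent.W840.CT.cn_pos m
    rw [P_eq, div_le_iff₀ (by positivity)]
    have e : ({q | Pool.Agent.W840.CT.SW n q.1 ∧ Pool.Agent.W840.CT.SW m q.2 ∧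
        Pool.Agent.W840.CT.DJ q.1 q.2 ∧ (J : ℝ) ≤ Run7.h738.NC.NN r q.1 q.2} :
        Set ((Fin (n + 1) → ℤ × ℤ) × (Fin (m + 1) → ℤ × ℤ))) =
        {q | Pool.Agent.W840.CT.SW n q.1 ∧ Pool.Agent.W840.CT.SW m q.2 ∧
        Pool.Agent.W840.CT.DJ q.1 q.2 ∧ J ≤ Run7.h738.NC.NN r q.1 q.2} := by
      ext q
      simp only [Set.mem_ofPred_eq, Nat.cast_le]
    rw [e]
    exact h3
  · have h3 := h2 r n m hr hnm x hx
    have hn := Pool.Agent.W840.CT.cn_pos n
    have hm := Pool.Agent.W840.CT.cn_pos m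
    rw [P_eq, P_eq, ← mul_div_assoc]
    refine div_le_div_of_nonneg_right ?_ (by positivity)
    have e : ({q | Pool.Agent.W840.CT.SW n q.1 ∧ Pool.Agent.W840.CT.SW m q.2 ∧
        Pool.Agent.W840.CT.DJ q.1 q.2 ∧ (0 : ℝ) ≤ Run7.h738.NC.NN r q.1 q.2} :
        Set ((Fin (n + 1) → ℤ × ℤ) × (Fin (m + 1) → ℤ × ℤ))) =
        {q | Pool.Agent.W840.CT.SW n q.1 ∧ Pool.Agent.W840.CT.SW m q.2 ∧
        Pool.Agent.W840.CT.DJ q.1 q.2} := by
      ext q
      simp only [Set.mem_ofPred_eq, Nat.cast_nonneg, and_true]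
    rw [e]
    exact h3

end Pool.Agent.Results.MP_8c6f77_pr.NearContacts
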