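import Pool.Agent.Run7.h710.MT.G

/-!
# Disjoint pairs of self-avoiding walks in a pair of sets, and the time of the extremum

Two independent uniform self-avoiding paths from the origin of `ℤ²` with `k` and `m` steps, conditioned on
being disjoint, stay in a given half-plane with probability at most
`K log (r + 2) / √(r + 1)`, `r = min k m`; the same for any sets `S` (for the first path) and `S'` (for the
second one) with `S ∩ -S' ⊆ {0}`.  Equivalently: the extremal site of a self-avoiding walk, in any sense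
whatsoever, is not at a given time.
-/

set_option autoImplicit false

namespace Pool.Agent.Results.MP_8c6f77_pr.TimeOfExtremum

/-- `w` is an `n`-step self-avoiding path on `ℤ²` from the origin. -/
def IsSAW (n : ℕ) (w : Fin (n + 1) → ℤ × ℤ) : Prop :=
  w 0 = (0, 0) ∧
  (∀ i : Fin n, |(w i.succ).1 - (w i.castSucc).1| + |(w i.succ).2 - (w i.castSucc).2| = 1) ∧
  Function.Injective w

/-- `a_n`, the number of `n`-step self-avoiding paths on `ℤ²` from the origin -/
noncomputable def a (n : ℕ) : ℕ := Nat.card {w : Fin (n + 1) → ℤ × ℤ // IsSAW n w}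

/-- `w{1,…,n} ∩ w'{0,…,m} = ∅` -/
def Disj {n m : ℕ} (w : Fin (n + 1) → ℤ × ℤ) (w' : Fin (m + 1) → ℤ × ℤ) : Prop :=
  ∀ i j, i ≠ 0 → w i ≠ w' j

/-- the number of the pairs of disjoint paths with `k` and `m` steps, the first one in `S`, the second
one in `S'` -/
noncomputable def pairs (k m : ℕ) (S S' : Set (ℤ × ℤ)) : ℕ :=
  Nat.card {q : (Fin (k + 1) → ℤ × ℤ) × (Fin (m + 1) → ℤ × ℤ) //
    (IsSAW k q.1 ∧ IsSAW m q.2 ∧ Disj q.1 q.2) ∧ (∀ i, q.1 i ∈ S) ∧ ∀ j, q.2 j ∈ S'}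

/-- the probability that two independent uniform paths with `k` and `m` steps stay in `S` and in `S'`,
given that they are disjoint -/
noncomputable def P (k m : ℕ) (S S' : Set (ℤ × ℤ)) : ℝ :=
  (pairs k m S S' : ℝ) / pairs k m Set.univ Set.univ

/-- the time `i` is marked: `R x c v` for all sites `v` up to the time `i`, and `R' x c v` for all sites
`v` from the time `i` on, where `x` is the end point and `c` the site at the time `i` -/
def Marked (R R' : ℤ × ℤ → ℤ × ℤ → ℤ × ℤ → Prop) {n : ℕ} (ω : Fin (n + 1) → ℤ × ℤ)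
    (i : Fin (n + 1)) : Prop :=
  ∀ j, (j ≤ i → R (ω (Fin.last n)) (ω i) (ω j)) ∧ (i ≤ j → R' (ω (Fin.last n)) (ω i) (ω j))

/-- the probability that the time `k` of the uniform path with `k + m` steps is marked -/
noncomputable def Q (R R' : ℤ × ℤ → ℤ × ℤ → ℤ × ℤ → Prop) (k m : ℕ) : ℝ :=
  (Nat.card {ω : Fin (k + m + 1) → ℤ × ℤ // IsSAW (k + m) ω ∧ Marked R R' ω ⟨k, by omega⟩} : ℝ) /
    a (k + m)

/-- the mean number of the marked times of the uniform path with `n` steps -/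
noncomputable def M (R R' : ℤ × ℤ → ℤ × ℤ → ℤ × ℤ → Prop) (n : ℕ) : ℝ :=
  (Nat.card {q : (Fin (n + 1) → ℤ × ℤ) × Fin (n + 1) // IsSAW n q.1 ∧ Marked R R' q.1 q.2} : ℝ) /
    a n

/-- `log (r + 2) / √(r + 1)`, `r = min k m` -/
noncomputable def bd (k m : ℕ) : ℝ := Real.log ((min k m : ℕ) + 2) / Real.sqrt ((min k m : ℕ) + 1)

/-- the distance of `v` from the point `z` of the plane -/
noncomputable def ds (z : ℝ × ℝ) (v : ℤ × ℤ) : ℝ := Real.sqrt ((v.1 - z.1) ^ 2 + (v.2 - z.2) ^ 2)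

open Pool.Agent.Run7.h710.MT
open Pool.Agent.TH546.SAW (W mem_W card_W)

section

open scoped Classical

theorem card_sub (N : ℕ) (E : (Fin (N + 1) → ℤ × ℤ) → Prop) [DecidablePred E] :
    Nat.card {ω : Fin (N + 1) → ℤ × ℤ // IsSAW N ω ∧ E ω} = ((W N).filter E).card := by
  have e : {ω : Fin (N + 1) → ℤ × ℤ // IsSAW N ω ∧ E ω} ≃ ((W N).filter E : Finset _) :=
    Equiv.subtypeEquivRight (fun ω => by
      rw [Finset.mem_filter, mem_W]
      exact Iff.rfl)
  rw [Nat.card_congr e, Nat.card_eq_fintype_card, Fintype.card_coe]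

theorem a_eq (n : ℕ) : a n = Pool.Agent.W840.CT.cn n := rfl

theorem a_pos (n : ℕ) : (0 : ℝ) < a n := by
  rw [a_eq, cc_cn]
  exact cc_pos n

theorem Q_eq (R R' : ℤ × ℤ → ℤ × ℤ → ℤ × ℤ → Prop) (k m : ℕ) :
    Q R R' k m = (NN (R, R') k m : ℝ) / a (k + m) := by
  unfold Q
  rw [NN_eq (R, R') rfl (show k < k + m + 1 by omega), ← card_sub]
  rfl

theorem M_eq (R R' : ℤ × ℤ → ℤ × ℤ → ℤ × ℤ → Prop) (n : ℕ) :
    ((∑ ω ∈ W n, mk (R, R') ω : ℕ) : ℝ) = M R R' n * a n := by
  unfold M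
  rw [div_mul_cancel₀ _ (a_pos n).ne']
  congr 1
  have e : {q : (Fin (n + 1) → ℤ × ℤ) × Fin (n + 1) // IsSAW n q.1 ∧ Marked R R' q.1 q.2} ≃
      ((W n ×ˢ (Finset.univ : Finset (Fin (n + 1)))).filter
        (fun q => Mk (R, R') q.1 q.2) : Finset _) :=
    Equiv.subtypeEquivRight (fun q => by
      rw [Finset.mem_filter, Finset.mem_product, mem_W]
      constructor
      · rintro ⟨h1, h2⟩
        exact ⟨⟨h1, Finset.mem_univ _⟩, h2⟩
      · rintro ⟨⟨h1, -⟩, h2⟩
        exact ⟨h1, h2⟩)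
  rw [Nat.card_congr e, Nat.card_eq_fintype_card, Fintype.card_coe, Finset.card_filter,
    Finset.sum_product]
  refine Finset.sum_congr rfl fun ω _ => ?_
  unfold mk
  rw [Finset.card_filter]

theorem jn_sub {k m : ℕ} {w : Fin (k + 1) → ℤ × ℤ} {w' : Fin (m + 1) → ℤ × ℤ}
    (h : w 0 = 0) (h' : w' 0 = 0) (S S' : Set (ℤ × ℤ)) :
    ((∀ i, w i ∈ S) ∧ ∀ j, w' j ∈ S') ↔
      ∀ j : Fin (k + m + 1), (j.1 ≤ k → TH262.UL.jn w w' j.1 - TH262.UL.jn w w' k ∈ S) ∧
        (k ≤ j.1 → TH262.UL.jn w w' j.1 - TH262.UL.jn w w' k ∈ S') := by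
  have h0 : TH262.UL.ex w 0 = 0 := by
    have := TH262.UL.ex_val w 0
    rw [Fin.val_zero] at this
    rw [this]; exact h
  have h0' : TH262.UL.ex w' 0 = 0 := by
    have := TH262.UL.ex_val w' 0
    rw [Fin.val_zero] at this
    rw [this]; exact h'
  have ek : TH262.UL.jn w w' k = - TH262.UL.ex w k := by
    rw [TH262.UL.jn_lo w w' le_rfl, Nat.sub_self, h0, zero_sub]
  rw [ek]
  constructor
  · rintro ⟨h1, h2⟩ j
    refine ⟨fun hj => ?_, fun hj => ?_⟩
    · rw [TH262.UL.jn_lo w w' hj, sub_neg_eq_add, sub_add_cancel]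
      exact h1 _
    · rw [TH262.UL.jn_hi h0 h0' hj, sub_neg_eq_add, sub_add_cancel]
      exact h2 _
  · intro h1
    constructor
    · intro i
      have h2 := (h1 ⟨k - i.1, by omega⟩).1 (Nat.sub_le _ _)
      rw [TH262.UL.jn_lo w w' (Nat.sub_le _ _), sub_neg_eq_add, sub_add_cancel] at h2
      have e : k - (k - i.1) = i.1 := by omega
      rw [e, TH262.UL.ex_val] at h2
      exact h2
    · intro j
      have h2 := (h1 ⟨k + j.1, by omega⟩).2 (Nat.le_add_right _ _)
      rw [TH262.UL.jn_hi h0 h0' (Nat.le_add_right _ _), sub_neg_eq_add, sub_add_cancel] at h2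
      have e : k + j.1 - k = j.1 := by omega
      rw [e, TH262.UL.ex_val] at h2
      exact h2

theorem pairs_eq (k m : ℕ) (S S' : Set (ℤ × ℤ)) :
    pairs k m S S' = NN (fun _ c v => v - c ∈ S, fun _ c v => v - c ∈ S') k m := by
  rw [NN_eq _ rfl (show k < k + m + 1 by omega), ← card_sub]
  unfold pairs
  have e1 := Equiv.subtypeSubtypeEquivSubtypeInter
    (fun q : (Fin (k + 1) → ℤ × ℤ) × (Fin (m + 1) → ℤ × ℤ) =>
      IsSAW k q.1 ∧ IsSAW m q.2 ∧ Disj q.1 q.2)
    (fun q => (∀ i, q.1 i ∈ S) ∧ ∀ j, q.2 j ∈ S')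
  have e2 := Equiv.subtypeSubtypeEquivSubtypeInter
    (fun ω : Fin (k + m + 1) → ℤ × ℤ => IsSAW (k + m) ω)
    (fun ω => Mk (fun _ c v => v - c ∈ S, fun _ c v => v - c ∈ S') ω ⟨k, by omega⟩)
  have e3 := Equiv.subtypeEquiv (TH262.UL.pairEquiv k m)
    (p := fun q => (∀ i, q.1.1 i ∈ S) ∧ ∀ j, q.1.2 j ∈ S')
    (q := fun ω => Mk (fun _ c v => v - c ∈ S, fun _ c v => v - c ∈ S') ω.1 ⟨k, by omega⟩)
    (fun q => jn_sub q.2.1.1 q.2.2.1.1 S S')
  exact Nat.card_congr (e1.symm.trans (e3.trans e2))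

theorem pairs_univ (k m : ℕ) : pairs k m Set.univ Set.univ = a (k + m) := by
  rw [pairs_eq, NN_eq _ rfl (show k < k + m + 1 by omega), ← card_sub]
  unfold a
  exact Nat.card_congr (Equiv.subtypeEquivRight fun ω =>
    ⟨fun h => h.1, fun h => ⟨h, fun _ => ⟨fun _ => trivial, fun _ => trivial⟩⟩⟩)

theorem P_eq (k m : ℕ) (S S' : Set (ℤ × ℤ)) :
    P k m S S' = (NN (fun _ c v => v - c ∈ S, fun _ c v => v - c ∈ S') k m : ℝ) / a (k + m) := by
  unfold P
  rw [pairs_univ, pairs_eq]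

end

/-- **Disjoint pairs in a pair of sets, and the time of the extremum.**  There is `K` such that for all
`k`, `m`, with `bd k m = log (r + 2) / √(r + 1)`, `r = min k m`:
(1) for all sets `S`, `S'` with `S ∩ -S' ⊆ {0}`, two independent uniform paths with `k` and `m` steps,
conditioned on being disjoint, stay in `S` and in `S'` with probability at most `K bd k m`;
(2) they both stay in a half-plane at distance `y` from the origin with probability at most
`K ^ (1 + y) bd k m`;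
(3) the distance from `z` of the uniform path with `k + m` steps is, up to `y`, maximal at the time `k` with
at most this probability;
(4) for every `A` there is `K` such that for all ternary relations `R`, `R'`, the probability that the time
`k` of the uniform path with `k + m` steps is marked is at most `K bd k m` times the mean number of marked
times, or times `exp (-A log² (r + 2))`, if this is larger. -/
theorem result : (∃ K : ℝ, 1 ≤ K ∧
    (∀ S S' : Set (ℤ × ℤ), (∀ v, v ∈ S → -v ∈ S' → v = 0) → ∀ k m : ℕ, P k m S S' ≤ K * bd k m) ∧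
    (∀ s t y : ℝ, s ^ 2 + t ^ 2 = 1 → 0 ≤ y → ∀ k m : ℕ,
      P k m {v | s * v.1 + t * v.2 ≤ y} {v | s * v.1 + t * v.2 ≤ y} ≤ K ^ (1 + y) * bd k m) ∧
    (∀ (z : ℝ × ℝ) (y : ℝ), 0 ≤ y → ∀ k m : ℕ,
      Q (fun _ c v => ds z v ≤ ds z c + y) (fun _ c v => ds z v ≤ ds z c + y) k m ≤
        K ^ (1 + y) * bd k m)) ∧
    ∀ A : ℝ, 0 ≤ A → ∃ K : ℝ, 1 ≤ K ∧ ∀ (R R' : ℤ × ℤ → ℤ × ℤ → ℤ × ℤ → Prop) (k m : ℕ),
      Q R R' k m ≤ K * max (M R R' (k + m))
        (Real.exp (-(A * Real.log (((min k m : ℕ) : ℝ) + 2) ^ 2))) * bd k m := by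
  obtain ⟨K1, hK1, h1⟩ := anti
  obtain ⟨K2, hK2, h2⟩ := steep
  have hbd : ∀ k m : ℕ, 0 ≤ bd k m := by
    intro k m
    unfold bd
    apply div_nonneg _ (Real.sqrt_nonneg _)
    apply Real.log_nonneg
    have h1 : (0 : ℝ) ≤ ((min k m : ℕ) : ℝ) := Nat.cast_nonneg _
    linarith
  have hp : ∀ y : ℝ, 0 ≤ y → K2 ^ (1 + y) ≤ (K1 + K2) ^ (1 + y) := fun y hy =>
    Real.rpow_le_rpow (by linarith) (by linarith) (by linarith)
  have hS : ∀ h : ℤ × ℤ → ℝ, Run7.h738.BV.Steep h → ∀ y : ℝ, 0 ≤ y → ∀ k m : ℕ,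
      (NN (dg (fun _ c v => h v ≤ h c + y)) k m : ℝ) / a (k + m) ≤
        (K1 + K2) ^ (1 + y) * bd k m := by
    intro h H y hy k m
    rw [div_le_iff₀ (a_pos _)]
    refine (h2 h H y hy k m).trans ?_
    rw [a_eq]
    apply mul_le_mul_of_nonneg_right _ (Nat.cast_nonneg _)
    exact mul_le_mul_of_nonneg_right (hp y hy) (hbd k m)
  refine ⟨⟨K1 + K2, by linarith, ?_, ?_, ?_⟩, ?_⟩
  · intro S S' hSS k m
    rw [P_eq, div_le_iff₀ (a_pos _)]
    refine (h1 _ (fun _ c v h4 h5 => ?_) k m).trans ?_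
    · have h6 := hSS (c - v) h5 (by rw [neg_sub]; exact h4)
      exact sub_eq_zero.1 h6
    · rw [a_eq]
      apply mul_le_mul_of_nonneg_right _ (Nat.cast_nonneg _)
      exact mul_le_mul_of_nonneg_right (by linarith) (hbd k m)
  · intro s t y hst hy k m
    rw [P_eq]
    have h4 := hS (Run7.h738.BV.ht s t) (Run7.h738.BV.steep_ht hst) y hy k m
    have e : (fun (_ c v : ℤ × ℤ) => v - c ∈ {v : ℤ × ℤ | s * v.1 + t * v.2 ≤ y}) =
        (fun _ c v => Run7.h738.BV.ht s t v ≤ Run7.h738.BV.ht s t c + y) := by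
      funext x c v
      apply propext
      show s * ((v - c).1 : ℤ) + t * ((v - c).2 : ℤ) ≤ y ↔
        s * v.1 + t * v.2 ≤ s * c.1 + t * c.2 + y
      rw [Prod.fst_sub, Prod.snd_sub]
      push_cast
      constructor <;> intro h <;> linarith
    rw [e]
    exact h4
  · intro z y hy k m
    rw [Q_eq]
    exact hS (Run7.h738.BV.dz z.1 z.2) (Run7.h738.BV.steep_dz z.1 z.2) y hy k m
  · intro A hA
    obtain ⟨K3, hK3, h3⟩ := bound A hA
    refine ⟨K3, hK3, fun R R' k m => ?_⟩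
    rw [Q_eq, div_le_iff₀ (a_pos _)]
    have h4 := h3 (R, R') k m (max (M R R' (k + m))
      (Real.exp (-(A * Real.log (((min k m : ℕ) : ℝ) + 2) ^ 2))) * a (k + m)) (by
      rw [← a_eq]
      exact mul_le_mul_of_nonneg_right (le_max_right _ _) (a_pos _).le) (by
      rw [M_eq]
      exact mul_le_mul_of_nonneg_right (le_max_left _ _) (a_pos _).le)
    refine h4.trans (le_of_eq ?_)
    unfold bd
    ring

end Pool.Agent.Results.MP_8c6f77_pr.TimeOfExtremum
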