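import Pool.Agent.Run7.h822.WN.Two

/-!
# Bridges, windings, turnings and areas of planar self-avoiding walks seen from typical times

`Walk G n` is the set of the `n`-step self-avoiding walks from the origin on the lattice `G` (square,
triangular or honeycomb), `mean` refers to a uniformly chosen walk, `vertex ω i` is the vertex of the
walk `ω` at time `i`.

A walk seen from its vertex at time `i` is a pair of walks which avoid each other, the past and the
future: the pairs of the problem, conditioned not to intersect, with lengths `i` and `n - i`. `seen ω i`
is the walk `ω` seen from this vertex, with times `-i, ..., n - i` (the vertex is moved to the origin; on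
the honeycomb lattice an odd vertex by a half-turn). `IsTwoSided G ν` says that the measure `ν` on
two-sided infinite paths is a limit point, as `n → ∞`, of the laws of the uniform `n`-step walks seen
from uniformly chosen times (a two-sided infinite self-avoiding walk: a pair of infinite walks which
avoid each other; by compactness there are such measures, and it is not known that there is only one).

For a path `q` and times `s ≤ t`, `Tame G q s t y` says that the piece of `q` between the times `s`
and `t` is a concatenation of at most `y` bridges (for the first coordinate, upwards or downwards), has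
a total turning of at most `y`, a winding angle of at most `y` around every vertex which is not on the
piece, and encloses together with its chord an algebraic area of at most `y` times the area of every
box which contains it. `TameAt G γ r y` says that all pieces of the two-sided path `γ` between the times
`-r` and `r` are tame with `y`; `Rough G γ R y` says that for some `r` with `1 ≤ r ≤ R` this fails with
`y (log (r + 1))⁴` in place of `y`. `times n P` is the number of the times `i ≤ n` with the property `P`.

**The theorem.** There is `K` such that for all lengths `n`: for every radius `r`, the mean number of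
the times `i`, `2 r ≤ i ≤ n - 2 r`, at which the walk is not tame at radius `r` with `y (log (r + 1))²`
is at most `K (n + 1) / y`; the mean number of the times at which the walk is not tame at ALL radii `r`
(up to the half of the shorter arm) with `y (log (r + 1))⁴` is at most `K (n + 1) / y`. The bounds refer
to the radius `r` and not to the length `n`, so they hold for two-sided infinite walks: almost surely
there is `y` such that for all `r` all pieces between the times `-r` and `r` are tame with
`y (log (r + 1))⁴`.

The proof: let `F` be a function of `m`-step walks. By the starting theorem on the splitting of walks of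
unequal lengths (`a_n a_m ≤ exp (B (log (m + 1))²) a_(n+m)`, `Pool.Agent.Y943.SL`), used for `n / m`
consecutive pieces with `m` steps, and by Jensen's inequality, the mean of `F`, averaged over all pieces
with `m` steps of the uniform `n`-step walk, is at most `log ⟨e^F⟩_m + 2 B (log (m + 1))²`. For the
number of bridges the right side is at most `K (log m)²` (helper529, `FewBridges`, MP_d98d96_pr);
windings, turnings and areas are bounded by the number of bridges (helper287 and helper822,
`WindingAngles` for MP_46f0ca_pr, `AlgebraicArea` for MP_eab347_pr).
-/

set_option autoImplicit false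

namespace Pool.Agent.Results.MP_8c6f77_pr.TwoSidedWalks

open Run7.h529.FB Run7.h287.WN Run7.h822.WN MeasureTheory

/-- **Theorem.** There is `K` such that on the square, the triangular and the honeycomb lattice:
(1) for all `n`, `r ≥ 1` and `y > 0` the mean number of the times `i`, `2 r ≤ i ≤ n - 2 r`, for which not
all pieces of the uniform `n`-step walk between the times `i - r` and `i + r` are tame with
`y (log (r + 1))²` is at most `K (n + 1) / y`;
(2) for all `n` and `y > 0` the mean number of the times `i ≤ n` such that for some `r ≥ 1` with
`2 r ≤ i`, `2 r ≤ n - i` not all pieces between the times `i - r` and `i + r` are tame with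
`y (log (r + 1))⁴` is at most `K (n + 1) / y`;
(3) for every limit point `ν` of the laws of the uniform walks seen from uniformly chosen times: the
two-sided path is not tame at radius `r` with `y (log (r + 1))²` with probability at most `K / y`, for
all `r ≥ 1`; with probability at least `1 - K / y` it is tame at all radii `r ≥ 1` with
`y (log (r + 1))⁴`; almost surely there is such a `y`. -/
theorem result : ∃ K : ℝ, 0 < K ∧ ∀ G : Lattice,
    (∀ n r : ℕ, 1 ≤ r → ∀ y : ℝ, 0 < y →
      mean G n (fun ω => (times n (fun i => 2 * r ≤ i ∧ i + 2 * r ≤ n ∧
        ¬ TameAt G (seen ω i) r (y * Real.log (r + 1) ^ 2)) : ℝ)) ≤ K * (n + 1) / y) ∧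
    (∀ n : ℕ, ∀ y : ℝ, 0 < y →
      mean G n (fun ω => (times n (fun i => Rough G (seen ω i) (min i (n - i) / 2) y) : ℝ)) ≤
        K * (n + 1) / y) ∧
    ∀ ν : Measure (ℤ → ℤ × ℤ), IsProbabilityMeasure ν → IsTwoSided G ν →
      (∀ r : ℕ, 1 ≤ r → ∀ y : ℝ, 0 < y →
        ν {γ | ¬ TameAt G γ r (y * Real.log (r + 1) ^ 2)} ≤ ENNReal.ofReal (K / y)) ∧
      (∀ y : ℝ, 0 < y → ν {γ | ∃ R : ℕ, Rough G γ R y} ≤ ENNReal.ofReal (K / y)) ∧
      ∀ᵐ γ ∂ν, ∃ y : ℝ, ∀ r : ℕ, 1 ≤ r → TameAt G γ r (y * Real.log (r + 1) ^ 4) := by
  obtain ⟨K1, hK1, H1⟩ := times_at
  obtain ⟨K2, hK2, H2⟩ := times_rough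
  have hle : ∀ a : ℝ, 0 ≤ a → K1 * a ≤ (K1 + K2) * a := fun a ha => by nlinarith
  have hle' : ∀ a : ℝ, 0 ≤ a → K2 * a ≤ (K1 + K2) * a := fun a ha => by nlinarith
  have G1 : ∀ G : Lattice, ∀ n r : ℕ, 1 ≤ r → ∀ y : ℝ, 0 < y →
      mean G n (fun ω => (times n (fun i => 2 * r ≤ i ∧ i + 2 * r ≤ n ∧
        ¬ TameAt G (seen ω i) r (y * Real.log (r + 1) ^ 2)) : ℝ)) ≤
        (K1 + K2) * (n + 1) / y := fun G n r hr y hy =>
    (H1 G n r hr y hy).trans (div_le_div_of_nonneg_right (hle _ (by positivity)) hy.le)
  have G2 : ∀ G : Lattice, ∀ n : ℕ, ∀ y : ℝ, 0 < y →
      mean G n (fun ω => (times n (fun i => Rough G (seen ω i) (min i (n - i) / 2) y) : ℝ)) ≤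
        (K1 + K2) * (n + 1) / y := fun G n y hy =>
    (H2 G n y hy).trans (div_le_div_of_nonneg_right (hle' _ (by positivity)) hy.le)
  have hK : 0 < K1 + K2 := by positivity
  refine ⟨K1 + K2, hK, fun G => ⟨G1 G, G2 G, fun ν hp hν => ⟨fun r hr y hy => ?_,
    fun y hy => ?_, ?_⟩⟩⟩
  · exact two_at hK (G1 G) hν hr hy
  · exact two_rough hK (G2 G) hν hy
  · exact two_ae fun y hy => two_rough hK (G2 G) hν hy

end Pool.Agent.Results.MP_8c6f77_pr.TwoSidedWalks
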